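import Mathlib

set_option autoImplicit false

namespace Pool.H48.IsoLie

open Polynomial IntermediateField

/-- the integer square root of `n` if `n` is a square, and `0` otherwise -/
def q (n : ℕ) : ℕ := if Nat.sqrt n * Nat.sqrt n = n then Nat.sqrt n else 0

theorem q_of_not {n : ℕ} (h : ¬ IsSquare n) : q n = 0 := by
  unfold q
  rw [if_neg]
  intro h1
  exact h ⟨_, h1.symm⟩

theorem q_sq (m : ℕ) : q (m * m) = m := by
  unfold q
  rw [Nat.sqrt_eq, if_pos rfl]

theorem q_mul_sq (n m : ℕ) (hm : 0 < m) : q (n * (m * m)) = q n * m := by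
  by_cases h : IsSquare n
  · obtain ⟨c, rfl⟩ := h
    rw [show c * c * (m * m) = (c * m) * (c * m) by ring, q_sq, q_sq]
  · rw [q_of_not h, q_of_not, zero_mul]
    rintro ⟨c, hc⟩
    apply h
    have h2 : m ^ 2 ∣ c ^ 2 := ⟨n, by nlinarith [hc]⟩
    rw [Nat.pow_dvd_pow_iff (by norm_num)] at h2
    obtain ⟨d, rfl⟩ := h2
    refine ⟨d, ?_⟩
    have : n * (m * m) = (d * d) * (m * m) := by rw [hc]; ring
    exact Nat.eq_of_mul_eq_mul_right (Nat.mul_pos hm hm) this

theorem cast_q {n : ℕ} (h : IsSquare n) : ((q n : ℕ) : ℝ) = Real.sqrt n := by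
  obtain ⟨c, rfl⟩ := h
  rw [q_sq]
  push_cast
  rw [Real.sqrt_mul_self (by positivity)]

/-- the sum of the square roots of a list of naturals -/
noncomputable def S (A : List ℕ) : ℝ := (A.map (fun n : ℕ => Real.sqrt (n : ℝ))).sum

/-- the part of the sum in the square class of `m` -/
def T (m : ℕ) (A : List ℕ) : ℕ := (A.map (fun n : ℕ => q (n * m))).sum

theorem not_isSquare_rat {n : ℕ} (h : ¬ IsSquare n) (b : ℚ) : b ^ 2 ≠ (n : ℚ) := by
  intro hb
  apply h
  have : IsSquare ((n : ℕ) : ℚ) := ⟨b, by rw [← hb]; ring⟩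
  rwa [Rat.isSquare_natCast_iff] at this

theorem minpoly_sqrt {F : IntermediateField ℚ ℝ} {n : ℕ} (h : ¬ IsSquare n) (x : F)
    (hx : (x : ℝ) = Real.sqrt n) : minpoly ℚ x = X ^ 2 - C (n : ℚ) := by
  symm
  apply minpoly.eq_of_irreducible_of_monic
  · exact X_pow_sub_C_irreducible_of_prime Nat.prime_two (not_isSquare_rat h)
  · have h2 : x ^ 2 = ((n : ℚ) : F) := by
      apply Subtype.ext
      push_cast
      rw [hx]
      exact Real.sq_sqrt (by positivity)
    simp only [map_sub, map_pow, aeval_X, aeval_C, h2]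
    simp
  · exact monic_X_pow_sub_C _ (by norm_num)

theorem trace_sqrt {F : IntermediateField ℚ ℝ} [FiniteDimensional ℚ F] (n : ℕ) (x : F)
    (hx : (x : ℝ) = Real.sqrt n) :
    Algebra.trace ℚ F x = (Module.finrank ℚ F : ℚ) * q n := by
  by_cases h : IsSquare n
  · have h1 : x = algebraMap ℚ F ((q n : ℕ) : ℚ) := by
      apply Subtype.ext
      rw [hx, ← cast_q h]
      simp
    rw [h1, Algebra.trace_algebraMap]
    simp
  · rw [trace_eq_finrank_mul_minpoly_nextCoeff, minpoly_sqrt h x hx, q_of_not h]
    have h3 : (X ^ 2 - C (n : ℚ) : ℚ[X]).nextCoeff = 0 := by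
      have hd : (X ^ 2 - C (n : ℚ) : ℚ[X]).natDegree = 2 := natDegree_X_pow_sub_C
      rw [nextCoeff_of_natDegree_pos (by rw [hd]; norm_num), hd]
      simp [coeff_X_pow]
    rw [h3]
    simp

theorem sum_trace {F : IntermediateField ℚ ℝ} [FiniteDimensional ℚ F] (m : ℕ) (g : ℕ → F)
    (A : List ℕ) (hg : ∀ n ∈ A, ((g n : F) : ℝ) = Real.sqrt ((n * m : ℕ) : ℝ)) :
    Algebra.trace ℚ F (A.map g).sum = (Module.finrank ℚ F : ℚ) * (T m A : ℕ) := by
  induction A with
  | nil => simp [T]
  | cons a A ih =>
    have h1 := trace_sqrt (F := F) (a * m) (g a) (hg a (by simp))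
    have h2 := ih (fun n hn => hg n (by simp [hn]))
    simp only [List.map_cons, List.sum_cons, map_add, h1, h2, T]
    push_cast
    ring

theorem coe_sum {F : IntermediateField ℚ ℝ} (m : ℕ) (g : ℕ → F)
    (A : List ℕ) (hg : ∀ n ∈ A, ((g n : F) : ℝ) = Real.sqrt ((n * m : ℕ) : ℝ)) :
    (((A.map g).sum : F) : ℝ) = S A * Real.sqrt m := by
  induction A with
  | nil => simp [S]
  | cons a A ih =>
    have h2 := ih (fun n hn => hg n (by simp [hn]))
    have h1 := hg a (by simp)
    simp only [List.map_cons, List.sum_cons, S] at h2 ⊢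
    rw [AddMemClass.coe_add, h2, h1]
    push_cast
    rw [Real.sqrt_mul (by positivity)]
    ring

theorem T_eq_of_S_eq {A B : List ℕ} (h : S A = S B) (m : ℕ) : T m A = T m B := by
  classical
  let Y : Set ℝ := (fun n : ℕ => Real.sqrt ((n * m : ℕ) : ℝ)) '' {n | n ∈ A ++ B}
  have hfin : Y.Finite := (List.finite_toSet (A ++ B)).image _
  have : Finite Y := hfin
  have hint : ∀ x ∈ Y, IsIntegral ℚ x := by
    rintro x ⟨n, -, rfl⟩
    refine ⟨X ^ 2 - C ((n * m : ℕ) : ℚ), monic_X_pow_sub_C _ (by norm_num), ?_⟩
    simp only [eval₂_sub, eval₂_pow, eval₂_X, eval₂_C]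
    rw [Real.sq_sqrt (by positivity)]
    simp
  have : FiniteDimensional ℚ (adjoin ℚ Y) := finiteDimensional_adjoin hint
  let g : ℕ → adjoin ℚ Y := fun n =>
    if h : Real.sqrt ((n * m : ℕ) : ℝ) ∈ adjoin ℚ Y then ⟨_, h⟩ else 0
  have hg : ∀ n ∈ A ++ B, ((g n : adjoin ℚ Y) : ℝ) = Real.sqrt ((n * m : ℕ) : ℝ) := by
    intro n hn
    have : Real.sqrt ((n * m : ℕ) : ℝ) ∈ adjoin ℚ Y := subset_adjoin ℚ Y ⟨n, hn, rfl⟩
    simp only [g, dif_pos this]
  have hA := fun n hn => hg n (List.mem_append_left B hn)
  have hB := fun n hn => hg n (List.mem_append_right A hn)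
  have h1 : (A.map g).sum = (B.map g).sum := by
    apply Subtype.ext
    rw [coe_sum m g A hA, coe_sum m g B hB, h]
  have h2 := congrArg (Algebra.trace ℚ (adjoin ℚ Y)) h1
  rw [sum_trace m g A hA, sum_trace m g B hB] at h2
  have h3 : (Module.finrank ℚ (adjoin ℚ Y) : ℚ) ≠ 0 := by
    have := Module.finrank_pos (R := ℚ) (M := adjoin ℚ Y)
    exact_mod_cast this.ne'
  have h4 := mul_left_cancel₀ h3 h2
  exact_mod_cast h4

theorem isSquare_of_mul_sq {n m : ℕ} (hm : 0 < m) (h : IsSquare (n * (m * m))) : IsSquare n := by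
  by_contra h1
  obtain ⟨c, hc⟩ := h
  have h2 := q_mul_sq n m hm
  rw [q_of_not h1, zero_mul, hc, q_sq] at h2
  subst h2
  rw [mul_zero] at hc
  have h3 : n = 0 := by
    rcases mul_eq_zero.mp hc with h | h
    · exact h
    · rcases mul_eq_zero.mp h with h | h <;> omega
  exact h1 ⟨0, by rw [h3]⟩

theorem isSquare_trans {n m k : ℕ} (hm : 0 < m) (h1 : IsSquare (n * m)) (h2 : IsSquare (m * k)) :
    IsSquare (n * k) := by
  apply isSquare_of_mul_sq hm
  have : n * k * (m * m) = (n * m) * (m * k) := by ring
  rw [this]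
  exact h1.mul h2

theorem S_filter (m : ℕ) (A : List ℕ) :
    S (A.filter (fun n => decide (IsSquare (n * m)))) * Real.sqrt m = (T m A : ℕ) := by
  induction A with
  | nil => simp [S, T]
  | cons a A ih =>
    by_cases h : IsSquare (a * m)
    · rw [List.filter_cons_of_pos (by simpa using h)]
      simp only [S, T, List.map_cons, List.sum_cons] at ih ⊢
      rw [add_mul, ih]
      push_cast
      rw [cast_q h]
      push_cast
      rw [Real.sqrt_mul (by positivity)]
    · rw [List.filter_cons_of_neg (by simpa using h), ih]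
      simp only [T, List.map_cons, List.sum_cons, q_of_not h]
      simp

theorem S_split (p : ℕ → Bool) (A : List ℕ) : S A = S (A.filter p) + S (A.filter (fun n => !p n)) := by
  induction A with
  | nil => simp [S]
  | cons a A ih =>
    by_cases h : p a = true
    · rw [List.filter_cons_of_pos h, List.filter_cons_of_neg (by simp [h])]
      simp only [S, List.map_cons, List.sum_cons] at ih ⊢
      rw [ih]; ring
    · rw [List.filter_cons_of_neg h, List.filter_cons_of_pos (by simpa using h)]
      simp only [S, List.map_cons, List.sum_cons] at ih ⊢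
      rw [ih]; ring

theorem T_filter_not {m k : ℕ} (A : List ℕ) (hA : ∀ n ∈ A, 0 < n)
    (hk : ¬ IsSquare (k * m)) :
    T k (A.filter (fun n => !decide (IsSquare (n * m)))) = T k A := by
  induction A with
  | nil => simp [T]
  | cons a A ih =>
    have ih' := ih (fun n hn => hA n (by simp [hn]))
    by_cases h : IsSquare (a * m)
    · rw [List.filter_cons_of_neg (by simpa using h), ih']
      have h1 : ¬ IsSquare (a * k) := by
        intro h2
        apply hk
        rw [mul_comm] at h2
        exact isSquare_trans (hA a (by simp)) h2 h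
      simp only [T, List.map_cons, List.sum_cons, q_of_not h1]
      simp
    · rw [List.filter_cons_of_pos (by simpa using h)]
      simp only [T, List.map_cons, List.sum_cons] at ih' ⊢
      rw [ih']

theorem S_eq_of_T_eq (N : ℕ) : ∀ (A B : List ℕ), A.length + B.length ≤ N →
    (∀ n ∈ A, 0 < n) → (∀ n ∈ B, 0 < n) → (∀ m ∈ A ++ B, T m A = T m B) → S A = S B := by
  induction N with
  | zero =>
    intro A B hN _ _ _
    have h1 : A = [] := List.length_eq_zero_iff.mp (by omega)
    have h2 : B = [] := List.length_eq_zero_iff.mp (by omega)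
    rw [h1, h2]
  | succ N ih =>
    intro A B hN hA hB hT
    by_cases hAB : A ++ B = []
    · rw [List.append_eq_nil_iff] at hAB
      rw [hAB.1, hAB.2]
    · obtain ⟨m, hm⟩ := List.exists_mem_of_ne_nil _ hAB
      have hm0 : 0 < m := by
        rcases List.mem_append.mp hm with h | h
        · exact hA m h
        · exact hB m h
      rw [S_split (fun n => decide (IsSquare (n * m))) A, S_split (fun n => decide (IsSquare (n * m))) B]
      have e1 : S (A.filter (fun n => decide (IsSquare (n * m)))) =
          S (B.filter (fun n => decide (IsSquare (n * m)))) := by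
        have h1 := S_filter m A
        have h2 := S_filter m B
        rw [hT m hm, ← h2] at h1
        have h3 : Real.sqrt m ≠ 0 := by
          have : (0 : ℝ) < m := by exact_mod_cast hm0
          positivity
        exact mul_right_cancel₀ h3 h1
      have e2 : S (A.filter (fun n => !decide (IsSquare (n * m)))) =
          S (B.filter (fun n => !decide (IsSquare (n * m)))) := by
        apply ih
        · have l1 : (A.filter (fun n => !decide (IsSquare (n * m)))).length ≤ A.length :=
            List.length_filter_le _ _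
          have l2 : (B.filter (fun n => !decide (IsSquare (n * m)))).length ≤ B.length :=
            List.length_filter_le _ _
          rcases List.mem_append.mp hm with h | h
          · have : (A.filter (fun n => !decide (IsSquare (n * m)))).length < A.length := by
              rw [List.length_filter_lt_length_iff_exists]
              exact ⟨m, h, by simp⟩
            omega
          · have : (B.filter (fun n => !decide (IsSquare (n * m)))).length < B.length := by
              rw [List.length_filter_lt_length_iff_exists]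
              exact ⟨m, h, by simp⟩
            omega
        · intro n hn
          exact hA n (List.mem_of_mem_filter hn)
        · intro n hn
          exact hB n (List.mem_of_mem_filter hn)
        · intro k hk
          rw [← List.filter_append, List.mem_filter] at hk
          have hk2 : ¬ IsSquare (k * m) := by simpa using hk.2
          rw [T_filter_not A hA hk2, T_filter_not B hB hk2]
          exact hT k hk.1
      rw [e1, e2]

theorem S_eq_iff {A B : List ℕ} (hA : ∀ n ∈ A, 0 < n) (hB : ∀ n ∈ B, 0 < n) :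
    S A = S B ↔ ∀ m ∈ A ++ B, T m A = T m B :=
  ⟨fun h m _ => T_eq_of_S_eq h m, fun h => S_eq_of_T_eq _ A B le_rfl hA hB h⟩

end Pool.H48.IsoLie
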