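import Mathlib
import Pool.Agent.H48.IsoLie.SqrtSum

set_option autoImplicit false

namespace Pool.H48.IsoLie

/-- words -/
abbrev W := List ℕ
/-- formal sums of words -/
abbrev L := List W
/-- formal differences -/
abbrev P := L × L
/-- formal fractions -/
abbrev C := P × P

variable (N : ℕ → ℕ)

/-- the number under the root attached to a word -/
def nw (w : W) : ℕ := (w.map N).foldr (fun a b => a * b) 1

theorem nw_nil : nw N [] = 1 := rfl

theorem nw_cons (a : ℕ) (w : W) : nw N (a :: w) = N a * nw N w := rfl

theorem nw_append (v w : W) : nw N (v ++ w) = nw N v * nw N w := by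
  induction v with
  | nil => simp [nw_nil]
  | cons a v ih => rw [List.cons_append, nw_cons, ih, nw_cons, mul_assoc]

theorem nw_pos (hN : ∀ j, 0 < N j) (w : W) : 0 < nw N w := by
  induction w with
  | nil => simp [nw_nil]
  | cons a v ih => rw [nw_cons]; exact Nat.mul_pos (hN a) ih

/-- value of a formal sum -/
noncomputable def V (l : L) : ℝ := S (l.map (nw N))

theorem V_nil : V N [] = 0 := by simp [V, S]

theorem V_cons (w : W) (l : L) : V N (w :: l) = Real.sqrt (nw N w) + V N l := by simp [V, S]

theorem V_append (l l' : L) : V N (l ++ l') = V N l + V N l' := by simp [V, S]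

/-- product of formal sums -/
def mulL (l l' : L) : L := l.flatMap (fun v => l'.map (fun w => v ++ w))

theorem V_map_append (v : W) (l : L) :
    V N (l.map (fun w => v ++ w)) = Real.sqrt (nw N v) * V N l := by
  induction l with
  | nil => simp [V_nil]
  | cons a l ih =>
    rw [List.map_cons, V_cons, ih, V_cons, nw_append]
    push_cast
    rw [Real.sqrt_mul (by positivity)]
    ring

theorem V_mulL (l l' : L) : V N (mulL l l') = V N l * V N l' := by
  induction l with
  | nil => simp [mulL, V_nil]
  | cons a l ih =>
    have : mulL (a :: l) l' = l'.map (fun w => a ++ w) ++ mulL l l' := by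
      simp [mulL]
    rw [this, V_append, V_map_append, ih, V_cons]
    ring

/-- the part of a formal sum in the square class of a word -/
def tw (u : W) (l : L) : ℕ := (l.map (fun v => q (nw N v * nw N u))).foldr (fun a b => a + b) 0

theorem tw_eq (u : W) (l : L) : tw N u l = T (nw N u) (l.map (nw N)) := by
  unfold tw T
  rw [← List.sum_eq_foldr, List.map_map]
  rfl

/-- equality test for formal sums -/
def eqL (l l' : L) : Prop := ∀ u ∈ l ++ l', tw N u l = tw N u l'

instance (l l' : L) : Decidable (eqL N l l') := by unfold eqL; infer_instance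

theorem eqL_iff (hN : ∀ j, 0 < N j) (l l' : L) : eqL N l l' ↔ V N l = V N l' := by
  unfold V
  rw [S_eq_iff]
  · unfold eqL
    constructor
    · intro h m hm
      rw [← List.map_append] at hm
      obtain ⟨u, hu, rfl⟩ := List.mem_map.mp hm
      have := h u hu
      rwa [tw_eq, tw_eq] at this
    · intro h u hu
      rw [tw_eq, tw_eq]
      apply h
      rw [← List.map_append]
      exact List.mem_map_of_mem hu
  · intro n hn
    obtain ⟨u, -, rfl⟩ := List.mem_map.mp hn
    exact nw_pos N hN u
  · intro n hn
    obtain ⟨u, -, rfl⟩ := List.mem_map.mp hn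
    exact nw_pos N hN u

/-- value of a formal difference -/
noncomputable def pv (x : P) : ℝ := V N x.1 - V N x.2

def padd (x y : P) : P := (x.1 ++ y.1, x.2 ++ y.2)
def pneg (x : P) : P := (x.2, x.1)
def pmul (x y : P) : P := (mulL x.1 y.1 ++ mulL x.2 y.2, mulL x.1 y.2 ++ mulL x.2 y.1)
def peq (x y : P) : Prop := eqL N (x.1 ++ y.2) (x.2 ++ y.1)

instance (x y : P) : Decidable (peq N x y) := by unfold peq; infer_instance

theorem pv_padd (x y : P) : pv N (padd x y) = pv N x + pv N y := by
  simp only [pv, padd, V_append]; ring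

theorem pv_pneg (x : P) : pv N (pneg x) = - pv N x := by
  simp only [pv, pneg]; ring

theorem pv_pmul (x y : P) : pv N (pmul x y) = pv N x * pv N y := by
  simp only [pv, pmul, V_append, V_mulL]; ring

theorem peq_iff (hN : ∀ j, 0 < N j) (x y : P) : peq N x y ↔ pv N x = pv N y := by
  unfold peq
  rw [eqL_iff N hN]
  simp only [pv, V_append]
  constructor <;> intro h <;> linarith

/-- value of a formal fraction (with `x / 0 = 0`) -/
noncomputable def cv (x : C) : ℝ := pv N x.1 / pv N x.2

/-- replace fractions with denominator zero by `0 / 1` -/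
def norm (x : C) : C := if peq N x.2 ([], []) then (([], []), ([[]], [])) else x

theorem pv_zero : pv N (([], []) : P) = 0 := by simp [pv]

theorem pv_one : pv N (([[]], []) : P) = 1 := by simp [pv, V_cons, V_nil, nw_nil]

theorem norm_ne (hN : ∀ j, 0 < N j) (x : C) : pv N (norm N x).2 ≠ 0 := by
  unfold norm
  split_ifs with h
  · rw [pv_one]; norm_num
  · rw [peq_iff N hN, pv_zero] at h
    exact h

theorem cv_norm (hN : ∀ j, 0 < N j) (x : C) : cv N (norm N x) = cv N x := by
  unfold norm
  split_ifs with h
  · rw [peq_iff N hN, pv_zero] at h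
    simp [cv, h, pv_zero]
  · rfl

def cadd (x y : C) : C :=
  (padd (pmul (norm N x).1 (norm N y).2) (pmul (norm N y).1 (norm N x).2),
    pmul (norm N x).2 (norm N y).2)
def cmul (x y : C) : C := (pmul x.1 y.1, pmul x.2 y.2)
def cneg (x : C) : C := (pneg x.1, x.2)
def cinv (x : C) : C := (x.2, x.1)
def ceq (x y : C) : Prop := peq N (pmul (norm N x).1 (norm N y).2) (pmul (norm N y).1 (norm N x).2)

instance (x y : C) : Decidable (ceq N x y) := by unfold ceq; infer_instance

theorem cv_cadd (hN : ∀ j, 0 < N j) (x y : C) : cv N (cadd N x y) = cv N x + cv N y := by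
  rw [← cv_norm N hN x, ← cv_norm N hN y]
  have h1 := norm_ne N hN x
  have h2 := norm_ne N hN y
  simp only [cv, cadd, pv_padd, pv_pmul]
  field_simp

theorem cv_cmul (x y : C) : cv N (cmul x y) = cv N x * cv N y := by
  simp only [cv, cmul, pv_pmul]
  rw [div_mul_div_comm]

theorem cv_cneg (x : C) : cv N (cneg x) = - cv N x := by
  simp only [cv, cneg, pv_pneg]
  ring

theorem cv_cinv (x : C) : cv N (cinv x) = (cv N x)⁻¹ := by
  simp only [cv, cinv]
  rw [inv_div]

theorem ceq_iff (hN : ∀ j, 0 < N j) (x y : C) : ceq N x y ↔ cv N x = cv N y := by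
  rw [← cv_norm N hN x, ← cv_norm N hN y]
  have h1 := norm_ne N hN x
  have h2 := norm_ne N hN y
  unfold ceq
  rw [peq_iff N hN, pv_pmul, pv_pmul]
  simp only [cv]
  rw [div_eq_div_iff h1 h2]

end Pool.H48.IsoLie
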