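import Mathlib

set_option autoImplicit false

namespace Pool.H48.IsoLie

/-- The map `ν` presents the field `k` as a computable field: every element of `k` has at least one
code `n : ℕ`, it is decidable whether two codes denote the same element, and the field operations
are computable on codes. -/
structure IsComputableField (k : Type) [Field k] (ν : ℕ → k) : Prop where
  surjective : Function.Surjective ν
  eq : ComputablePred fun p : ℕ × ℕ => ν p.1 = ν p.2
  add : ∃ f : ℕ → ℕ → ℕ, Computable₂ f ∧ ∀ m n, ν (f m n) = ν m + ν n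
  mul : ∃ f : ℕ → ℕ → ℕ, Computable₂ f ∧ ∀ m n, ν (f m n) = ν m * ν n
  neg : ∃ f : ℕ → ℕ, Computable f ∧ ∀ n, ν (f n) = - ν n
  inv : ∃ f : ℕ → ℕ, Computable f ∧ ∀ n, ν (f n) = (ν n)⁻¹

/-- The `j`-th free generator among `n` (zero when `j` is not a valid index). -/
noncomputable def gen (k : Type) [Field k] (n j : ℕ) : FreeLieAlgebra k (Fin n) :=
  if h : j < n then FreeLieAlgebra.of k ⟨j, h⟩ else 0

/-- The element of the free Lie algebra coded by a one-relator presentation
`(n, [(c₁, i₁, w₁), (c₂, i₂, w₂), …])`: the number of generators is `n`, and a term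
`(c, i, [j₁, …, j_r])` contributes `ν c • [… [[x_i, x_{j₁}], x_{j₂}], …, x_{j_r}]`. -/
noncomputable def relator {k : Type} [Field k] (ν : ℕ → k) (a : ℕ × List (ℕ × ℕ × List ℕ)) :
    FreeLieAlgebra k (Fin a.1) :=
  (a.2.map fun t => ν t.1 •
    t.2.2.foldl (fun x j => ⁅x, gen k a.1 j⁆) (gen k a.1 t.2.1)).sum

/-- The one-relator Lie algebras `L(x₁,…,x_m)/(r)` and `L(x₁,…,x_n)/(s)` over `k` are
isomorphic. -/
def Isomorphic (k : Type) [Field k] {m n : ℕ} (r : FreeLieAlgebra k (Fin m))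
    (s : FreeLieAlgebra k (Fin n)) : Prop :=
  Nonempty
    ((FreeLieAlgebra k (Fin m) ⧸ LieSubmodule.lieSpan k (FreeLieAlgebra k (Fin m)) {r}) ≃ₗ⁅k⁆
      (FreeLieAlgebra k (Fin n) ⧸ LieSubmodule.lieSpan k (FreeLieAlgebra k (Fin n)) {s}))

/-- The isomorphism problem for one-relator Lie algebras over `(k, ν)` is algorithmically
decidable. -/
def IsoDecidable {k : Type} [Field k] (ν : ℕ → k) : Prop :=
  ∃ D : (ℕ × List (ℕ × ℕ × List ℕ)) → (ℕ × List (ℕ × ℕ × List ℕ)) → Bool, Computable₂ D ∧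
    ∀ a b, D a b = true ↔ Isomorphic k (relator ν a) (relator ν b)

/-- The Lie polynomial `[[[x,y],x],x] - c [[[x,y],y],y]` over `k`. -/
noncomputable def quartic (k : Type) [Field k] (c : k) : FreeLieAlgebra k (Fin 2) :=
  let x := FreeLieAlgebra.of k (0 : Fin 2)
  let y := FreeLieAlgebra.of k (1 : Fin 2)
  ⁅⁅⁅x, y⁆, x⁆, x⁆ - c • ⁅⁅⁅x, y⁆, y⁆, y⁆

/-- The field `ℚ(√(2^(2^e) + 1) : the program with number e halts on input 0)`. -/
noncomputable def haltField : Subfield ℝ :=
  Subfield.closure {x : ℝ | ∃ c : Nat.Partrec.Code, (c.eval 0).Dom ∧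
    x = Real.sqrt (2 ^ (2 ^ Encodable.encode c) + 1)}

end Pool.H48.IsoLie
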