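import Mathlib
import Pool.Agent.H48.IsoLie.Codes

set_option autoImplicit false

namespace Pool.H48.IsoLie

variable {N : ℕ → ℕ}

theorem prim_q : Primrec q := by
  unfold q
  refine Primrec.ite ?_ Primrec.nat_sqrt (Primrec.const 0)
  exact Primrec.eq.comp (Primrec.nat_mul.comp Primrec.nat_sqrt Primrec.nat_sqrt) Primrec.id

theorem prim_nw (hN : Primrec N) : Primrec (nw N) := by
  unfold nw
  refine Primrec.list_foldr (f := fun w : W => w.map N) (g := fun _ => 1)
    (h := fun _ x => x.1 * x.2) ?_ (Primrec.const 1) ?_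
  · exact Primrec.list_map Primrec.id (hN.comp Primrec.snd).to₂
  · exact (Primrec.nat_mul.comp (Primrec.fst.comp Primrec.snd) (Primrec.snd.comp Primrec.snd)).to₂

theorem prim_mulL : Primrec₂ mulL := by
  unfold mulL
  refine Primrec.list_flatMap (f := fun x : L × L => x.1)
    (g := fun x v => x.2.map (fun w => v ++ w)) Primrec.fst ?_
  refine Primrec.list_map (f := fun y : (L × L) × W => y.1.2) (g := fun y w => y.2 ++ w)
    (Primrec.snd.comp Primrec.fst) ?_
  exact Primrec.list_append.comp (Primrec.snd.comp Primrec.fst) Primrec.snd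

theorem prim_tw (hN : Primrec N) : Primrec₂ (tw N) := by
  unfold tw
  refine Primrec.list_foldr (f := fun x : W × L => x.2.map (fun v => q (nw N v * nw N x.1)))
    (g := fun _ => 0) (h := fun _ x => x.1 + x.2) ?_ (Primrec.const 0) ?_
  · refine Primrec.list_map (f := fun x : W × L => x.2)
      (g := fun x v => q (nw N v * nw N x.1)) Primrec.snd ?_
    exact prim_q.comp (Primrec.nat_mul.comp ((prim_nw hN).comp Primrec.snd)
      ((prim_nw hN).comp (Primrec.fst.comp Primrec.fst)))
  · exact (Primrec.nat_add.comp (Primrec.fst.comp Primrec.snd) (Primrec.snd.comp Primrec.snd)).to₂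

theorem prim_eqL (hN : Primrec N) : PrimrecRel (eqL N) := by
  have h1 : PrimrecRel (fun (u : W) (x : L × L) => tw N u x.1 = tw N u x.2) := by
    exact Primrec.eq.comp ((prim_tw hN).comp Primrec.fst (Primrec.fst.comp Primrec.snd))
      ((prim_tw hN).comp Primrec.fst (Primrec.snd.comp Primrec.snd))
  have h2 := h1.forall_mem_list
  have h3 : PrimrecPred (fun x : L × L => ∀ u ∈ x.1 ++ x.2, tw N u x.1 = tw N u x.2) :=
    h2.comp (Primrec.list_append.comp Primrec.fst Primrec.snd) Primrec.id
  exact h3

theorem prim_padd : Primrec₂ padd := by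
  unfold padd
  exact Primrec.pair
    (Primrec.list_append.comp (Primrec.fst.comp Primrec.fst) (Primrec.fst.comp Primrec.snd))
    (Primrec.list_append.comp (Primrec.snd.comp Primrec.fst) (Primrec.snd.comp Primrec.snd))

theorem prim_pneg : Primrec pneg := by
  unfold pneg
  exact Primrec.pair Primrec.snd Primrec.fst

theorem prim_pmul : Primrec₂ pmul := by
  unfold pmul
  refine Primrec.pair (Primrec.list_append.comp ?_ ?_) (Primrec.list_append.comp ?_ ?_)
  · exact prim_mulL.comp (Primrec.fst.comp Primrec.fst) (Primrec.fst.comp Primrec.snd)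
  · exact prim_mulL.comp (Primrec.snd.comp Primrec.fst) (Primrec.snd.comp Primrec.snd)
  · exact prim_mulL.comp (Primrec.fst.comp Primrec.fst) (Primrec.snd.comp Primrec.snd)
  · exact prim_mulL.comp (Primrec.snd.comp Primrec.fst) (Primrec.fst.comp Primrec.snd)

theorem prim_peq (hN : Primrec N) : PrimrecRel (peq N) := by
  unfold peq
  exact (prim_eqL hN).comp
    (Primrec.list_append.comp (Primrec.fst.comp Primrec.fst) (Primrec.snd.comp Primrec.snd))
    (Primrec.list_append.comp (Primrec.snd.comp Primrec.fst) (Primrec.fst.comp Primrec.snd))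

theorem prim_norm (hN : Primrec N) : Primrec (norm N) := by
  unfold norm
  exact Primrec.ite ((prim_peq hN).comp Primrec.snd (Primrec.const _)) (Primrec.const _) Primrec.id

theorem prim_cadd (hN : Primrec N) : Primrec₂ (cadd N) := by
  have a := (prim_norm hN).comp (Primrec.fst (α := C) (β := C))
  have b := (prim_norm hN).comp (Primrec.snd (α := C) (β := C))
  unfold cadd
  exact Primrec.pair (prim_padd.comp (prim_pmul.comp (Primrec.fst.comp a) (Primrec.snd.comp b))
    (prim_pmul.comp (Primrec.fst.comp b) (Primrec.snd.comp a)))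
    (prim_pmul.comp (Primrec.snd.comp a) (Primrec.snd.comp b))

theorem prim_ceq (hN : Primrec N) : PrimrecRel (ceq N) := by
  have a := (prim_norm hN).comp (Primrec.fst (α := C) (β := C))
  have b := (prim_norm hN).comp (Primrec.snd (α := C) (β := C))
  unfold ceq
  exact (prim_peq hN).comp (prim_pmul.comp (Primrec.fst.comp a) (Primrec.snd.comp b))
    (prim_pmul.comp (Primrec.fst.comp b) (Primrec.snd.comp a))

theorem prim_cmul : Primrec₂ cmul := by
  unfold cmul
  exact Primrec.pair (prim_pmul.comp (Primrec.fst.comp Primrec.fst) (Primrec.fst.comp Primrec.snd))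
    (prim_pmul.comp (Primrec.snd.comp Primrec.fst) (Primrec.snd.comp Primrec.snd))

theorem prim_cneg : Primrec cneg := by
  unfold cneg
  exact Primrec.pair (prim_pneg.comp Primrec.fst) Primrec.snd

theorem prim_cinv : Primrec cinv := by
  unfold cinv
  exact Primrec.pair Primrec.snd Primrec.fst

end Pool.H48.IsoLie
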