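import Mathlib
import Pool.Agent.H48.IsoLie.Prim

set_option autoImplicit false

namespace Pool.H48.IsoLie

/-- the field generated by the square roots of the numbers `N j` -/
noncomputable def kf (N : ℕ → ℕ) : Subfield ℝ :=
  Subfield.closure (Set.range fun j : ℕ => Real.sqrt (N j : ℝ))

variable (N : ℕ → ℕ)

theorem sqrt_nw_mem (w : W) : Real.sqrt (nw N w : ℝ) ∈ kf N := by
  induction w with
  | nil => simp [nw_nil, (kf N).one_mem]
  | cons a v ih =>
    rw [nw_cons]
    push_cast
    rw [Real.sqrt_mul (by positivity)]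
    exact (kf N).mul_mem (Subfield.subset_closure ⟨a, rfl⟩) ih

theorem V_mem (l : L) : V N l ∈ kf N := by
  induction l with
  | nil => rw [V_nil]; exact (kf N).zero_mem
  | cons w l ih => rw [V_cons]; exact (kf N).add_mem (sqrt_nw_mem N w) ih

theorem cv_mem (x : C) : cv N x ∈ kf N := by
  unfold cv pv
  exact (kf N).div_mem ((kf N).sub_mem (V_mem N _) (V_mem N _))
    ((kf N).sub_mem (V_mem N _) (V_mem N _))

theorem exists_cv (hN : ∀ j, 0 < N j) {z : ℝ} (hz : z ∈ kf N) : ∃ x : C, cv N x = z := by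
  unfold kf at hz
  induction hz using Subfield.closure_induction with
  | mem z hz =>
    obtain ⟨j, rfl⟩ := hz
    refine ⟨(([[j]], []), ([[]], [])), ?_⟩
    simp [cv, pv, V_cons, V_nil, nw_nil, nw_cons]
  | one => exact ⟨(([[]], []), ([[]], [])), by simp [cv, pv, V_cons, V_nil, nw_nil]⟩
  | add x y _ _ hx hy =>
    obtain ⟨a, rfl⟩ := hx
    obtain ⟨b, rfl⟩ := hy
    exact ⟨cadd N a b, cv_cadd N hN a b⟩
  | neg x _ hx =>
    obtain ⟨a, rfl⟩ := hx
    exact ⟨cneg a, cv_cneg N a⟩
  | inv x _ hx =>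
    obtain ⟨a, rfl⟩ := hx
    exact ⟨cinv a, cv_cinv N a⟩
  | mul x y _ _ hx hy =>
    obtain ⟨a, rfl⟩ := hx
    obtain ⟨b, rfl⟩ := hy
    exact ⟨cmul a b, cv_cmul N a b⟩

/-- the numbering of `kf N` -/
noncomputable def nu (n : ℕ) : kf N := ⟨cv N (Denumerable.ofNat C n), cv_mem N _⟩

theorem ofNat_encode_C (x : C) : Denumerable.ofNat C (Encodable.encode x) = x :=
  Denumerable.ofNat_encode (α := C) x

theorem nu_encode (x : C) : ((nu N (Encodable.encode x) : kf N) : ℝ) = cv N x := by
  unfold nu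
  exact congrArg (cv N) (ofNat_encode_C x)

theorem nu_surjective (hN : ∀ j, 0 < N j) : Function.Surjective (nu N) := by
  rintro ⟨z, hz⟩
  obtain ⟨x, hx⟩ := exists_cv N hN hz
  refine ⟨Encodable.encode x, ?_⟩
  apply Subtype.ext
  rw [nu_encode, hx]

theorem nu_eq (hN : ∀ j, 0 < N j) (hp : Primrec N) :
    ComputablePred fun p : ℕ × ℕ => nu N p.1 = nu N p.2 := by
  have h1 : PrimrecRel fun m n : ℕ => ceq N (Denumerable.ofNat C m) (Denumerable.ofNat C n) :=
    (prim_ceq hp).comp ((Primrec.ofNat C).comp Primrec.fst) ((Primrec.ofNat C).comp Primrec.snd)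
  have h2 : ∀ p : ℕ × ℕ, (ceq N (Denumerable.ofNat C p.1) (Denumerable.ofNat C p.2) ↔
      nu N p.1 = nu N p.2) := by
    intro p
    rw [ceq_iff N hN, Subtype.ext_iff]
    rfl
  obtain ⟨hd, h3⟩ := h1
  have h4 : ComputablePred fun p : ℕ × ℕ =>
      ceq N (Denumerable.ofNat C p.1) (Denumerable.ofNat C p.2) := ⟨hd, h3.to_comp⟩
  exact h4.of_eq h2

theorem nu_add (hN : ∀ j, 0 < N j) (hp : Primrec N) :
    ∃ f : ℕ → ℕ → ℕ, Computable₂ f ∧ ∀ m n, nu N (f m n) = nu N m + nu N n := by
  refine ⟨fun m n => Encodable.encode (cadd N (Denumerable.ofNat C m) (Denumerable.ofNat C n)),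
    ?_, ?_⟩
  · exact (Primrec.encode.comp ((prim_cadd hp).comp ((Primrec.ofNat C).comp Primrec.fst)
      ((Primrec.ofNat C).comp Primrec.snd))).to_comp
  · intro m n
    apply Subtype.ext
    rw [nu_encode, cv_cadd N hN]
    rfl

theorem nu_mul :
    ∃ f : ℕ → ℕ → ℕ, Computable₂ f ∧ ∀ m n, nu N (f m n) = nu N m * nu N n := by
  refine ⟨fun m n => Encodable.encode (cmul (Denumerable.ofNat C m) (Denumerable.ofNat C n)),
    ?_, ?_⟩
  · exact (Primrec.encode.comp (prim_cmul.comp ((Primrec.ofNat C).comp Primrec.fst)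
      ((Primrec.ofNat C).comp Primrec.snd))).to_comp
  · intro m n
    apply Subtype.ext
    rw [nu_encode, cv_cmul N]
    rfl

theorem nu_neg :
    ∃ f : ℕ → ℕ, Computable f ∧ ∀ n, nu N (f n) = - nu N n := by
  refine ⟨fun n => Encodable.encode (cneg (Denumerable.ofNat C n)), ?_, ?_⟩
  · exact (Primrec.encode.comp (prim_cneg.comp (Primrec.ofNat C))).to_comp
  · intro n
    apply Subtype.ext
    rw [nu_encode, cv_cneg N]
    rfl

theorem nu_inv :
    ∃ f : ℕ → ℕ, Computable f ∧ ∀ n, nu N (f n) = (nu N n)⁻¹ := by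
  refine ⟨fun n => Encodable.encode (cinv (Denumerable.ofNat C n)), ?_, ?_⟩
  · exact (Primrec.encode.comp (prim_cinv.comp (Primrec.ofNat C))).to_comp
  · intro n
    apply Subtype.ext
    rw [nu_encode, cv_cinv N]
    rfl

/-- a number independent from the `N j` modulo squares has no square root in `kf N` -/
theorem sqrt_notMem (hN : ∀ j, 0 < N j) (m : ℕ) (hm : 0 < m)
    (h : ∀ v w : W, ¬ IsSquare (m * (nw N v * nw N w))) : Real.sqrt m ∉ kf N := by
  intro hk
  obtain ⟨x, hx⟩ := exists_cv N hN hk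
  rw [← cv_norm N hN x] at hx
  have hd := norm_ne N hN x
  set y := norm N x with hy
  obtain ⟨⟨a, b⟩, ⟨c, d⟩⟩ := y
  simp only [cv, pv] at hx hd
  have h1 : Real.sqrt m * V N c + V N b = Real.sqrt m * V N d + V N a := by
    rw [div_eq_iff hd] at hx
    linarith
  have h2 : ∀ l : L, Real.sqrt m * V N l = S (l.map (fun w => m * nw N w)) := by
    intro l
    induction l with
    | nil => simp [V_nil, S]
    | cons w l ih =>
      rw [V_cons, mul_add, ih]
      simp only [S, List.map_cons, List.sum_cons]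
      push_cast
      rw [Real.sqrt_mul (by positivity)]
  have h3 : ∀ A B : List ℕ, S A + S B = S (A ++ B) := by
    intro A B
    simp [S]
  have h4 : S (c.map (fun w => m * nw N w) ++ b.map (nw N)) =
      S (d.map (fun w => m * nw N w) ++ a.map (nw N)) := by
    rw [← h3, ← h3, ← h2, ← h2]
    exact h1
  have h5 : ∀ (k : ℕ) (A B : List ℕ), T k (A ++ B) = T k A + T k B := by
    intro k A B
    simp [T]
  have h6 : ∀ (u : W) (l : L), T (m * nw N u) (l.map (nw N)) = 0 := by
    intro u l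
    induction l with
    | nil => simp [T]
    | cons w l ih =>
      simp only [T, List.map_cons, List.sum_cons] at ih ⊢
      rw [ih, q_of_not]
      rw [show nw N w * (m * nw N u) = m * (nw N w * nw N u) by ring]
      exact h w u
  have h7 : ∀ (u : W) (l : L), T (m * nw N u) (l.map (fun w => m * nw N w)) =
      m * T (nw N u) (l.map (nw N)) := by
    intro u l
    induction l with
    | nil => simp [T]
    | cons w l ih =>
      simp only [T, List.map_cons, List.sum_cons] at ih ⊢
      rw [ih, show m * nw N w * (m * nw N u) = (nw N w * nw N u) * (m * m) by ring,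
        q_mul_sq _ _ hm]
      ring
  have h8 : ∀ u : W, T (nw N u) (c.map (nw N)) = T (nw N u) (d.map (nw N)) := by
    intro u
    have h9 := T_eq_of_S_eq h4 (m * nw N u)
    rw [h5, h5, h6, h6, h7, h7, add_zero, add_zero] at h9
    exact Nat.eq_of_mul_eq_mul_left hm h9
  apply hd
  rw [sub_eq_zero]
  unfold V
  rw [S_eq_iff]
  · intro k hk
    rw [← List.map_append] at hk
    obtain ⟨u, -, rfl⟩ := List.mem_map.mp hk
    exact h8 u
  · intro n hn
    obtain ⟨u, -, rfl⟩ := List.mem_map.mp hn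
    exact nw_pos N hN u
  · intro n hn
    obtain ⟨u, -, rfl⟩ := List.mem_map.mp hn
    exact nw_pos N hN u

theorem isSquare_iff (n : ℕ) : IsSquare ((n : ℕ) : kf N) ↔ Real.sqrt n ∈ kf N := by
  constructor
  · rintro ⟨z, hz⟩
    have h1 : ((n : ℕ) : ℝ) = (z : ℝ) * (z : ℝ) := by
      have := congrArg (fun x : kf N => (x : ℝ)) hz
      simpa using this
    rw [h1, Real.sqrt_mul_self_eq_abs]
    rcases abs_choice (z : ℝ) with h | h
    · rw [h]; exact z.2
    · rw [h]; exact (kf N).neg_mem z.2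
  · intro h
    refine ⟨⟨_, h⟩, ?_⟩
    apply Subtype.ext
    simp

theorem isAlgebraic (x : kf N) : IsAlgebraic ℚ (x : ℝ) := by
  obtain ⟨z, hz⟩ := x
  change IsAlgebraic ℚ z
  unfold kf at hz
  induction hz using Subfield.closure_induction with
  | mem z hz =>
    obtain ⟨j, rfl⟩ := hz
    refine IsAlgebraic.of_pow (n := 2) (by norm_num) ?_
    rw [Real.sq_sqrt (by positivity)]
    exact isAlgebraic_natCast (N j)
  | one => exact isAlgebraic_one
  | add x y _ _ hx hy => exact hx.add hy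
  | neg x _ hx => exact hx.neg
  | inv x _ hx => exact hx.inv
  | mul x y _ _ hx hy => exact hx.mul hy

end Pool.H48.IsoLie
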