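import Mathlib
import Pool.Agent.H48.IsoLie.Field

set_option autoImplicit false

namespace Pool.H48.IsoLie

open Nat.Partrec

/-- halting at stage `s` of the program with code number `c` on input `0` -/
def haltsBy (c s : ℕ) : Bool := (Code.evaln s (Denumerable.ofNat Code c) 0).isSome

/-- the numbers whose square roots generate the field -/
def gens (j : ℕ) : ℕ := if haltsBy j.unpair.1 j.unpair.2 = true then 2 ^ (2 ^ j.unpair.1) + 1 else 1

theorem gens_pos (j : ℕ) : 0 < gens j := by
  unfold gens
  split_ifs <;> positivity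

theorem prim_haltsBy : Primrec₂ haltsBy := by
  unfold haltsBy
  have h1 : Primrec (fun x : ℕ × ℕ => ((x.2, Denumerable.ofNat Code x.1), 0)) :=
    Primrec.pair (Primrec.pair Primrec.snd ((Primrec.ofNat Code).comp Primrec.fst))
      (Primrec.const 0)
  exact Primrec.option_isSome.comp (Code.primrec_evaln.comp h1)

theorem prim_pow : Primrec₂ (fun m n : ℕ => m ^ n) :=
  Primrec₂.unpaired'.1 Nat.Primrec.pow

theorem prim_fermat : Primrec (fun c : ℕ => 2 ^ (2 ^ c) + 1) :=
  Primrec.nat_add.comp (prim_pow.comp (Primrec.const 2)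
    (prim_pow.comp (Primrec.const 2) Primrec.id)) (Primrec.const 1)

theorem prim_gens : Primrec gens := by
  unfold gens
  refine Primrec.ite ?_ ?_ (Primrec.const 1)
  · exact Primrec.eq.comp (prim_haltsBy.comp (Primrec.fst.comp Primrec.unpair)
      (Primrec.snd.comp Primrec.unpair)) (Primrec.const true)
  · exact prim_fermat.comp (Primrec.fst.comp Primrec.unpair)

theorem fermat_not_square (c : ℕ) : ¬ IsSquare (2 ^ (2 ^ c) + 1) := by
  rintro ⟨r, hr⟩
  rcases Nat.eq_zero_or_pos c with rfl | hc
  · norm_num at hr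
    have : r < 2 := by nlinarith
    interval_cases r <;> omega
  · obtain ⟨d, rfl⟩ : ∃ d, c = d + 1 := ⟨c - 1, by omega⟩
    have h1 : 2 ^ (2 ^ (d + 1)) = (2 ^ (2 ^ d)) * (2 ^ (2 ^ d)) := by
      rw [← pow_add]; congr 1; ring
    rw [h1] at hr
    set x := 2 ^ (2 ^ d) with hx
    have hx1 : 0 < x := by positivity
    have h2 : x < r := by
      by_contra h
      have : r ≤ x := by omega
      have := Nat.mul_le_mul this this
      omega
    have h3 : (x + 1) * (x + 1) ≤ r * r := Nat.mul_le_mul h2 h2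
    nlinarith

theorem nw_coprime (c : ℕ) (hc : ∀ s, haltsBy c s = false) (w : W) :
    Nat.Coprime (2 ^ (2 ^ c) + 1) (nw gens w) := by
  induction w with
  | nil => simp [nw_nil]
  | cons a v ih =>
    rw [nw_cons]
    refine Nat.Coprime.mul_right ?_ ih
    unfold gens
    split_ifs with h
    · have hne : c ≠ a.unpair.1 := by
        intro h1
        rw [← h1, hc] at h
        exact absurd h (by simp)
      exact Nat.coprime_fermatNumber_fermatNumber hne
    · exact Nat.coprime_one_right _

theorem isSquare_of_coprime_mul {a b : ℕ} (h : Nat.Coprime a b) (hs : IsSquare (a * b)) :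
    IsSquare a := by
  obtain ⟨c, hc⟩ := hs
  obtain ⟨d, hd⟩ := exists_eq_pow_of_mul_eq_pow (a := a) (b := b) (c := c) (k := 2)
    (by rw [Nat.isUnit_iff]; exact h) (by rw [hc]; ring)
  exact ⟨d, by rw [hd]; ring⟩

theorem isSquare_fermat_iff (c : ℕ) :
    IsSquare (((2 ^ (2 ^ c) + 1 : ℕ)) : kf gens) ↔ ∃ s, haltsBy c s = true := by
  rw [isSquare_iff]
  constructor
  · intro h
    by_contra h1
    have hc : ∀ s, haltsBy c s = false := by
      intro s
      by_contra h2
      exact h1 ⟨s, by simpa using h2⟩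
    refine sqrt_notMem gens gens_pos _ (by positivity) ?_ h
    intro v w hs
    exact fermat_not_square c (isSquare_of_coprime_mul
      (Nat.Coprime.mul_right (nw_coprime c hc v) (nw_coprime c hc w)) hs)
  · rintro ⟨s, hs⟩
    apply Subfield.subset_closure
    refine ⟨Nat.pair c s, ?_⟩
    simp only [gens, Nat.unpair_pair, hs, if_true]

theorem halts_iff (c : Code) :
    (∃ s, haltsBy (Encodable.encode c) s = true) ↔ (Code.eval c 0).Dom := by
  unfold haltsBy
  rw [Denumerable.ofNat_encode]
  rw [Part.dom_iff_mem]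
  constructor
  · rintro ⟨s, hs⟩
    obtain ⟨y, hy⟩ := Option.isSome_iff_exists.mp hs
    exact ⟨y, Code.evaln_sound hy⟩
  · rintro ⟨y, hy⟩
    obtain ⟨s, hs⟩ := Code.evaln_complete.mp hy
    exact ⟨s, Option.isSome_iff_exists.mpr ⟨y, hs⟩⟩

/-- every recursively enumerable predicate reduces to being a square in `kf gens` -/
theorem reduction (p : ℕ → Prop) (hp : REPred p) :
    ∃ g : ℕ → ℕ, Computable g ∧ (∀ n, 0 < g n) ∧ ∀ n, p n ↔ IsSquare ((g n : ℕ) : kf gens) := by
  have h1 : Partrec (fun n : ℕ => Part.assert (p n) fun _ => Part.some ()) := hp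
  have h2 : Partrec₂ (fun (n : ℕ) (_ : ℕ) => (Part.assert (p n) fun _ => Part.some 0 : Part ℕ)) := by
    have h3 : Partrec (fun x : ℕ × ℕ => (Part.assert (p x.1) fun _ => Part.some ())) :=
      h1.comp Computable.fst
    have h4 := h3.map ((Computable.const (0 : ℕ)).comp (Computable.fst (α := ℕ × ℕ) (β := Unit))).to₂
    refine h4.of_eq ?_
    intro x
    ext y
    simp only [Part.mem_map_iff, Part.mem_assert_iff, Part.mem_some_iff]
    constructor
    · rintro ⟨a, ⟨h, -⟩, rfl⟩
      exact ⟨h, rfl⟩
    · rintro ⟨h, rfl⟩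
      exact ⟨(), ⟨h, trivial⟩, rfl⟩
  obtain ⟨cd, hcd⟩ := Code.exists_code.mp
    (show Nat.Partrec (fun x : ℕ => (Part.assert (p x.unpair.1) fun _ => Part.some 0 : Part ℕ)) from by
      have h3 := h2.comp (Computable.fst.comp Computable.unpair) (Computable.snd.comp Computable.unpair)
      exact Partrec.nat_iff.mp h3)
  refine ⟨fun n => 2 ^ (2 ^ (Encodable.encode (Code.curry cd n))) + 1, ?_, ?_, ?_⟩
  · exact (prim_fermat.comp (Primrec.encode.comp
      (Code.primrec₂_curry.comp (Primrec.const cd) Primrec.id))).to_comp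
  · intro n; positivity
  · intro n
    rw [isSquare_fermat_iff, halts_iff, Code.eval_curry, hcd]
    simp [Part.dom_iff_mem, Part.mem_assert_iff]

end Pool.H48.IsoLie
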