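import Mathlib

set_option autoImplicit false

namespace Pool.H48.IsoLie

section lift

variable {k A B : Type*} [CommRing k] [LieRing A] [LieAlgebra k A] [LieRing B] [LieAlgebra k B]

/-- the projection onto the quotient, as a Lie algebra homomorphism -/
def qmk (I : LieIdeal k A) : A →ₗ⁅k⁆ (A ⧸ I) :=
  { (LieSubmodule.Quotient.mk' I : A →ₗ[k] (A ⧸ I)) with
    map_lie' := fun {_ _} => rfl }

theorem qmk_surjective (I : LieIdeal k A) : Function.Surjective (qmk I) :=
  LieSubmodule.Quotient.surjective_mk' I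

theorem qmk_eq_zero (I : LieIdeal k A) {x : A} : qmk I x = 0 ↔ x ∈ I :=
  LieSubmodule.Quotient.mk_eq_zero I

/-- the homomorphism induced on a quotient -/
def qlift (I : LieIdeal k A) (f : A →ₗ⁅k⁆ B) (h : ∀ x ∈ I, f x = 0) : (A ⧸ I) →ₗ⁅k⁆ B :=
  { Submodule.liftQ I.toSubmodule (f : A →ₗ[k] B) (fun x hx => h x hx) with
    map_lie' := by
      intro x y
      obtain ⟨x, rfl⟩ := qmk_surjective I x
      obtain ⟨y, rfl⟩ := qmk_surjective I y
      exact f.map_lie x y }

theorem qlift_qmk (I : LieIdeal k A) (f : A →ₗ⁅k⁆ B) (h : ∀ x ∈ I, f x = 0) (x : A) :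
    qlift I f h (qmk I x) = f x := rfl

theorem qhom_ext (I : LieIdeal k A) {f g : (A ⧸ I) →ₗ⁅k⁆ B}
    (h : f.comp (qmk I) = g.comp (qmk I)) : f = g := by
  ext x
  obtain ⟨x, rfl⟩ := qmk_surjective I x
  exact LieHom.congr_fun h x

theorem kill_of_kill (f : A →ₗ⁅k⁆ B) (r : A) (h : f r = 0) :
    ∀ x ∈ LieSubmodule.lieSpan k A ({r} : Set A), f x = 0 := by
  intro x hx
  have h1 : LieSubmodule.lieSpan k A ({r} : Set A) ≤ f.ker := by
    rw [LieSubmodule.lieSpan_le]
    intro y hy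
    rw [Set.mem_singleton_iff] at hy
    rw [hy]
    exact (LieHom.mem_ker).mpr h
  exact (LieHom.mem_ker).mp (h1 hx)

end lift

section fil

variable (k : Type*) [Field k]

/-- a five dimensional filiform Lie algebra -/
def Fil := Fin 5 → k

instance : AddCommGroup (Fil k) := inferInstanceAs (AddCommGroup (Fin 5 → k))
instance : Module k (Fil k) := inferInstanceAs (Module k (Fin 5 → k))

variable {k}

omit [Field k] in
theorem Fil.ext' {x y : Fil k} (h : ∀ i : Fin 5, x i = y i) : x = y := funext h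

theorem fil_add (x y : Fil k) (i : Fin 5) : (x + y) i = x i + y i := rfl
theorem fil_smul (c : k) (x : Fil k) (i : Fin 5) : (c • x) i = c * x i := rfl
theorem fil_zero (i : Fin 5) : (0 : Fil k) i = 0 := rfl

/-- the bracket -/
def fb (x y : Fil k) : Fil k :=
  ![0, 0, x 0 * y 1 - y 0 * x 1, x 0 * y 2 - y 0 * x 2, x 0 * y 3 - y 0 * x 3]

instance : Bracket (Fil k) (Fil k) := ⟨fb⟩

theorem fb0 (x y : Fil k) : (⁅x, y⁆ : Fil k) 0 = 0 := rfl
theorem fb1 (x y : Fil k) : (⁅x, y⁆ : Fil k) 1 = 0 := rfl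
theorem fb2 (x y : Fil k) : (⁅x, y⁆ : Fil k) 2 = x 0 * y 1 - y 0 * x 1 := rfl
theorem fb3 (x y : Fil k) : (⁅x, y⁆ : Fil k) 3 = x 0 * y 2 - y 0 * x 2 := rfl
theorem fb4 (x y : Fil k) : (⁅x, y⁆ : Fil k) 4 = x 0 * y 3 - y 0 * x 3 := rfl

instance : LieRing (Fil k) where
  add_lie x y z := by
    apply Fil.ext'
    intro i
    fin_cases i <;> simp only [Fin.zero_eta, Fin.mk_one, Fin.reduceFinMk, fb0, fb1, fb2, fb3, fb4, fil_add] <;> ring
  lie_add x y z := by
    apply Fil.ext'
    intro i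
    fin_cases i <;> simp only [Fin.zero_eta, Fin.mk_one, Fin.reduceFinMk, fb0, fb1, fb2, fb3, fb4, fil_add] <;> ring
  lie_self x := by
    apply Fil.ext'
    intro i
    fin_cases i <;> simp only [Fin.zero_eta, Fin.mk_one, Fin.reduceFinMk, fb0, fb1, fb2, fb3, fb4, fil_zero] <;> ring
  leibniz_lie x y z := by
    apply Fil.ext'
    intro i
    fin_cases i <;> simp only [Fin.zero_eta, Fin.mk_one, Fin.reduceFinMk, fb0, fb1, fb2, fb3, fb4, fil_add] <;> ring

instance : LieAlgebra k (Fil k) where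
  lie_smul c x y := by
    apply Fil.ext'
    intro i
    fin_cases i <;> simp only [Fin.zero_eta, Fin.mk_one, Fin.reduceFinMk, fb0, fb1, fb2, fb3, fb4, fil_smul] <;> ring

/-- image of the first generator -/
def vx : Fil k := ![1, 0, 0, 0, 0]

/-- image of the second generator -/
def vy : Fil k := ![1, 1, 0, 0, 0]

/-- an endomorphism with one-dimensional image -/
def phi (l m : k) : Fil k →ₗ⁅k⁆ Fil k where
  toFun x := ![l * x 0 + m * x 1, 0, 0, 0, 0]
  map_add' x y := by
    apply Fil.ext'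
    intro i
    fin_cases i
    · change l * (x 0 + y 0) + m * (x 1 + y 1) = (l * x 0 + m * x 1) + (l * y 0 + m * y 1)
      ring
    all_goals
      change (0 : k) = 0 + 0
      ring
  map_smul' c x := by
    apply Fil.ext'
    intro i
    fin_cases i
    · change l * (c * x 0) + m * (c * x 1) = c * (l * x 0 + m * x 1)
      ring
    all_goals
      change (0 : k) = c * 0
      ring
  map_lie' := by
    intro x y
    apply Fil.ext'
    intro i
    fin_cases i
    · change l * 0 + m * 0 = (0 : k)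
      ring
    · rfl
    · change (0 : k) = (l * x 0 + m * x 1) * 0 - (l * y 0 + m * y 1) * 0
      ring
    · change (0 : k) = (l * x 0 + m * x 1) * 0 - (l * y 0 + m * y 1) * 0
      ring
    · change (0 : k) = (l * x 0 + m * x 1) * 0 - (l * y 0 + m * y 1) * 0
      ring

theorem phi_zero (l m : k) (x : Fil k) : phi l m x 0 = l * x 0 + m * x 1 := rfl

end fil

section main

variable {k : Type*} [Field k]

/-- the relator `[x,y,x,x] - a [x,y,y,y]` -/
def rel {A : Type*} [LieRing A] [LieAlgebra k A] (a : k) (x y : A) : A :=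
  ⁅⁅⁅x, y⁆, x⁆, x⁆ - a • ⁅⁅⁅x, y⁆, y⁆, y⁆

theorem map_rel {A B : Type*} [LieRing A] [LieAlgebra k A] [LieRing B] [LieAlgebra k B]
    (f : A →ₗ⁅k⁆ B) (a : k) (x y : A) : f (rel a x y) = rel a (f x) (f y) := by
  simp only [rel, map_sub, map_smul, LieHom.map_lie]

/-- the free Lie algebra of rank two -/
abbrev F2 (k : Type*) [Field k] := FreeLieAlgebra k (Fin 2)

/-- the ideal generated by the relator -/
noncomputable abbrev I (a : k) : LieIdeal k (F2 k) :=
  LieSubmodule.lieSpan k (F2 k) ({rel a (FreeLieAlgebra.of k 0) (FreeLieAlgebra.of k 1)} : Set (F2 k))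

theorem rel_quot (a : k) :
    rel a (qmk (I a) (FreeLieAlgebra.of k 0)) (qmk (I a) (FreeLieAlgebra.of k 1)) = 0 := by
  rw [← map_rel, qmk_eq_zero]
  exact LieSubmodule.subset_lieSpan (Set.mem_singleton _)

/-- homomorphism out of the one-relator algebra -/
noncomputable def lift2 (a : k) {B : Type*} [LieRing B] [LieAlgebra k B] (u v : B) (h : rel a u v = 0) :
    (F2 k ⧸ I a) →ₗ⁅k⁆ B :=
  qlift (I a) (FreeLieAlgebra.lift k ![u, v]) (kill_of_kill _ _ (by
    rw [map_rel, FreeLieAlgebra.lift_of_apply, FreeLieAlgebra.lift_of_apply]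
    exact h))

theorem lift2_zero (a : k) {B : Type*} [LieRing B] [LieAlgebra k B] (u v : B) (h : rel a u v = 0) :
    lift2 a u v h (qmk (I a) (FreeLieAlgebra.of k 0)) = u := by
  exact FreeLieAlgebra.lift_of_apply (R := k) ![u, v] 0

theorem lift2_one (a : k) {B : Type*} [LieRing B] [LieAlgebra k B] (u v : B) (h : rel a u v = 0) :
    lift2 a u v h (qmk (I a) (FreeLieAlgebra.of k 1)) = v := by
  exact FreeLieAlgebra.lift_of_apply (R := k) ![u, v] 1

theorem hom2_ext (a : k) {B : Type*} [LieRing B] [LieAlgebra k B] {f g : (F2 k ⧸ I a) →ₗ⁅k⁆ B}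
    (h0 : f (qmk (I a) (FreeLieAlgebra.of k 0)) = g (qmk (I a) (FreeLieAlgebra.of k 0)))
    (h1 : f (qmk (I a) (FreeLieAlgebra.of k 1)) = g (qmk (I a) (FreeLieAlgebra.of k 1))) :
    f = g := by
  apply qhom_ext
  apply FreeLieAlgebra.hom_ext
  intro i
  fin_cases i
  · exact h0
  · exact h1

theorem isSquare_of_equiv (a : k) (e : (F2 k ⧸ I a) ≃ₗ⁅k⁆ (F2 k ⧸ I (1 : k))) : IsSquare a := by
  have hr : rel (1 : k) (vx : Fil k) vy = 0 := by
    unfold rel
    rw [one_smul, sub_eq_zero]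
    apply Fil.ext'
    intro i
    fin_cases i <;> simp only [Fin.zero_eta, Fin.mk_one, Fin.reduceFinMk, fb0, fb1, fb2, fb3, fb4] <;>
      simp [vx, vy]
  let rho := lift2 (1 : k) _ _ hr
  let f : (F2 k ⧸ I a) →ₗ⁅k⁆ Fil k := rho.comp e.toLieHom
  have hf : ∀ z, f z = rho (e z) := fun z => rfl
  set p := f (qmk (I a) (FreeLieAlgebra.of k 0)) with hp
  set q := f (qmk (I a) (FreeLieAlgebra.of k 1)) with hq
  have key : ∀ l m : k, l * p 0 + m * p 1 = 0 → l * q 0 + m * q 1 = 0 → l = 0 ∧ m = 0 := by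
    intro l m h1 h2
    have h3 : (phi l m).comp f = (0 : (F2 k ⧸ I a) →ₗ⁅k⁆ Fil k) := by
      apply hom2_ext
      · apply Fil.ext'
        intro i
        fin_cases i
        · exact h1
        all_goals rfl
      · apply Fil.ext'
        intro i
        fin_cases i
        · exact h2
        all_goals rfl
    have h4 : ∀ z, l * rho z 0 + m * rho z 1 = 0 := by
      intro z
      obtain ⟨w, rfl⟩ := e.surjective z
      have := congrArg (fun x : Fil k => x 0) (LieHom.congr_fun h3 w)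
      exact this
    have h5 := h4 (qmk (I (1 : k)) (FreeLieAlgebra.of k 0))
    have h6 := h4 (qmk (I (1 : k)) (FreeLieAlgebra.of k 1))
    rw [lift2_zero] at h5
    rw [lift2_one] at h6
    change l * 1 + m * 0 = 0 at h5
    change l * 1 + m * 1 = 0 at h6
    have h7 : l = 0 := by simpa using h5
    refine ⟨h7, ?_⟩
    rw [h7] at h6
    simpa using h6
  have hD : p 0 * q 1 - q 0 * p 1 ≠ 0 := by
    intro h
    by_cases h1 : p 0 = 0 ∧ p 1 = 0
    · obtain ⟨h2, h3⟩ := key (q 1) (-q 0) (by rw [h1.1, h1.2]; ring) (by ring)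
      have h4 := key 1 0 (by rw [h1.1, h1.2]; ring) (by
        have : q 0 = 0 := by simpa using h3
        rw [this]; ring)
      exact one_ne_zero h4.1
    · obtain ⟨h2, h3⟩ := key (p 1) (-p 0) (by ring) (by linear_combination -h)
      exact h1 ⟨by simpa using h3, h2⟩
  have h8 : rel a p q = 0 := by
    rw [hp, hq, ← map_rel, rel_quot, map_zero]
  have h9 : p 0 * p 0 * (p 0 * q 1 - q 0 * p 1) = a * (q 0 * q 0) * (p 0 * q 1 - q 0 * p 1) := by
    unfold rel at h8
    rw [sub_eq_zero] at h8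
    have h10 := congrArg (fun x : Fil k => x 4) h8
    simp only [fb0, fb2, fb3, fb4, fil_smul] at h10
    linear_combination h10
  have h11 := mul_right_cancel₀ hD h9
  have hq0 : q 0 ≠ 0 := by
    intro h
    rw [h] at h11
    have h12 : p 0 = 0 := by
      have : p 0 * p 0 = 0 := by rw [h11]; ring
      exact mul_self_eq_zero.mp this
    apply hD
    rw [h, h12]; ring
  refine ⟨p 0 / q 0, ?_⟩
  field_simp
  linear_combination -h11

theorem rel_smul {A : Type*} [LieRing A] [LieAlgebra k A] (a c : k) (x y : A) :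
    rel a x (c • y) = c • rel (a * c ^ 2) x y := by
  simp only [rel, smul_sub, smul_lie, lie_smul, smul_smul]
  congr 2
  ring

/-- scaling gives an isomorphism -/
theorem equiv_of_isSquare (a : k) (ha : a ≠ 0) (h : IsSquare a) :
    Nonempty ((F2 k ⧸ I a) ≃ₗ⁅k⁆ (F2 k ⧸ I (1 : k))) := by
  obtain ⟨c, hc⟩ := h
  have hc0 : c ≠ 0 := by
    rintro rfl
    exact ha (by rw [hc]; ring)
  have e1 : a * (c⁻¹) ^ 2 = 1 := by
    rw [hc]; field_simp
  have e2 : 1 * c ^ 2 = a := by
    rw [hc]; ring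
  let X := fun b : k => qmk (I b) (FreeLieAlgebra.of k 0)
  let Y := fun b : k => qmk (I b) (FreeLieAlgebra.of k 1)
  let f : (F2 k ⧸ I a) →ₗ⁅k⁆ (F2 k ⧸ I (1 : k)) := lift2 a (X 1) (c⁻¹ • Y 1) (by
    rw [rel_smul, e1, rel_quot, smul_zero])
  let g : (F2 k ⧸ I (1 : k)) →ₗ⁅k⁆ (F2 k ⧸ I a) := lift2 1 (X a) (c • Y a) (by
    rw [rel_smul, e2, rel_quot, smul_zero])
  have hfX : f (X a) = X 1 := lift2_zero _ _ _ _
  have hfY : f (Y a) = c⁻¹ • Y 1 := lift2_one _ _ _ _
  have hgX : g (X 1) = X a := lift2_zero _ _ _ _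
  have hgY : g (Y 1) = c • Y a := lift2_one _ _ _ _
  have hgf : g.comp f = LieHom.id := by
    apply hom2_ext
    · change g (f (X a)) = X a
      rw [hfX, hgX]
    · change g (f (Y a)) = Y a
      rw [hfY, map_smul, hgY, smul_smul, inv_mul_cancel₀ hc0, one_smul]
  have hfg : f.comp g = LieHom.id := by
    apply hom2_ext
    · change f (g (X 1)) = X 1
      rw [hgX, hfX]
    · change f (g (Y 1)) = Y 1
      rw [hgY, map_smul, hfY, smul_smul, mul_inv_cancel₀ hc0, one_smul]
  exact ⟨{ f with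
    invFun := g
    left_inv := fun z => LieHom.congr_fun hgf z
    right_inv := fun z => LieHom.congr_fun hfg z }⟩

theorem equiv_iff (a : k) (ha : a ≠ 0) :
    Nonempty ((F2 k ⧸ I a) ≃ₗ⁅k⁆ (F2 k ⧸ I (1 : k))) ↔ IsSquare a :=
  ⟨fun ⟨e⟩ => isSquare_of_equiv a e, equiv_of_isSquare a ha⟩

end main

end Pool.H48.IsoLie
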