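import Mathlib
import Pool.Agent.H48.IsoLie.Defs
import Pool.Agent.H48.IsoLie.Lie
import Pool.Agent.H48.IsoLie.Halt

set_option autoImplicit false

namespace Pool.H48.IsoLie

open Nat.Partrec

theorem haltField_eq : haltField = kf gens := by
  unfold haltField kf
  apply le_antisymm
  · rw [Subfield.closure_le]
    rintro x ⟨c, hc, rfl⟩
    obtain ⟨s, hs⟩ := (halts_iff c).mpr hc
    apply Subfield.subset_closure
    refine ⟨Nat.pair (Encodable.encode c) s, ?_⟩
    simp only [gens, Nat.unpair_pair, hs, if_true]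
    push_cast
    rfl
  · rw [Subfield.closure_le]
    rintro x ⟨j, rfl⟩
    simp only [gens]
    split_ifs with h
    · have h1 : ∃ s, haltsBy (Encodable.encode (Denumerable.ofNat Code j.unpair.1)) s = true :=
        ⟨j.unpair.2, by rw [Denumerable.encode_ofNat]; exact h⟩
      rw [halts_iff] at h1
      apply Subfield.subset_closure
      refine ⟨Denumerable.ofNat Code j.unpair.1, h1, ?_⟩
      rw [Denumerable.encode_ofNat]
      push_cast
      rfl
    · simp only [Nat.cast_one, Real.sqrt_one]
      exact Subfield.one_mem _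

theorem isComputableField : IsComputableField (kf gens) (nu gens) where
  surjective := nu_surjective gens gens_pos
  eq := nu_eq gens gens_pos prim_gens
  add := nu_add gens gens_pos prim_gens
  mul := nu_mul gens
  neg := nu_neg gens
  inv := nu_inv gens

theorem quartic_iff (k : Type) [Field k] (c : k) (hc : c ≠ 0) :
    Isomorphic k (quartic k c) (quartic k 1) ↔ IsSquare c := equiv_iff c hc

/-- presentation code of a quartic algebra -/
def qcode (e m : ℕ) : ℕ × List (ℕ × ℕ × List ℕ) := (2, [(e, 0, [1, 0, 0]), (m, 0, [1, 1, 1])])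

theorem relator_qcode {k : Type} [Field k] (ν : ℕ → k) (e m : ℕ) (c : k) (he : ν e = 1)
    (hm : ν m = - c) : relator ν (qcode e m) = quartic k c := by
  have h0 : gen k 2 0 = FreeLieAlgebra.of k (0 : Fin 2) := by
    unfold gen
    rw [dif_pos (by norm_num)]
    rfl
  have h1 : gen k 2 1 = FreeLieAlgebra.of k (1 : Fin 2) := by
    unfold gen
    rw [dif_pos (by norm_num)]
    rfl
  change ([ν e • ⁅⁅⁅gen k 2 0, gen k 2 1⁆, gen k 2 0⁆, gen k 2 0⁆,
    ν m • ⁅⁅⁅gen k 2 0, gen k 2 1⁆, gen k 2 1⁆, gen k 2 1⁆] :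
      List (FreeLieAlgebra k (Fin 2))).sum = _
  rw [List.sum_cons, List.sum_cons, List.sum_nil, he, hm, one_smul, neg_smul, add_zero, h0, h1,
    ← sub_eq_add_neg]
  rfl

theorem oneRel_iff {k : Type} [Field k] (ν : ℕ → k) (e m o : ℕ) (c : k) (he : ν e = 1)
    (ho : ν o = - 1) (hm : ν m = - c) (hc : c ≠ 0) :
    Isomorphic k (relator ν (qcode e m)) (relator ν (qcode e o)) ↔ IsSquare c := by
  rw [← quartic_iff k c hc, relator_qcode ν e m c he hm, relator_qcode ν e o 1 he ho]
  rfl

theorem prim_qcode (e : ℕ) : Primrec (qcode e) := by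
  unfold qcode
  refine Primrec.pair (Primrec.const 2) ?_
  refine Primrec.list_cons.comp (Primrec.const _) ?_
  refine Primrec.list_cons.comp ?_ (Primrec.const [])
  exact Primrec.pair Primrec.id (Primrec.const _)

theorem squares_of_iso {k : Type} [Field k] (ν : ℕ → k) (h : IsComputableField k ν)
    (hD : IsoDecidable ν) : ComputablePred fun n => IsSquare (ν n) := by
  obtain ⟨D, hDc, hDs⟩ := hD
  obtain ⟨e, he⟩ := h.surjective 1
  obtain ⟨z, hz⟩ := h.surjective 0
  obtain ⟨neg, hnegc, hneg⟩ := h.neg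
  obtain ⟨E, hEc, hEs⟩ := ComputablePred.computable_iff.mp h.eq
  have ho : ν (neg e) = -1 := by rw [hneg, he]
  have hE : ∀ m n, E (m, n) = true ↔ ν m = ν n := by
    intro m n
    have := congrFun hEs (m, n)
    simp only at this
    rw [this]
  rw [ComputablePred.computable_iff]
  refine ⟨fun n => E (n, z) || D (qcode e (neg n)) (qcode e (neg e)), ?_, ?_⟩
  · have h1 : Computable fun n => E (n, z) :=
      hEc.comp (Computable.pair Computable.id (Computable.const z))
    have h2 : Computable fun n => D (qcode e (neg n)) (qcode e (neg e)) :=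
      hDc.comp ((prim_qcode e).to_comp.comp hnegc) (Computable.const _)
    exact Primrec.or.to_comp.comp h1 h2
  · funext n
    simp only [Bool.or_eq_true, eq_iff_iff]
    rw [hE, hz, hDs]
    by_cases h0 : ν n = 0
    · simp [h0]
    · rw [oneRel_iff ν e (neg n) (neg e) (ν n) he ho (hneg n) h0]
      simp [h0]

theorem exists_natCode {k : Type} [Field k] (ν : ℕ → k) (h : IsComputableField k ν) :
    ∃ f : ℕ → ℕ, Computable f ∧ ∀ n, ν (f n) = (n : k) := by
  obtain ⟨e, he⟩ := h.surjective 1
  obtain ⟨z, hz⟩ := h.surjective 0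
  obtain ⟨add, haddc, hadd⟩ := h.add
  refine ⟨fun n => Nat.rec z (fun _ c => add c e) n, ?_, ?_⟩
  · exact Computable.nat_rec (f := fun n : ℕ => n) (g := fun _ => z)
      (h := fun _ x => add x.2 e) Computable.id (Computable.const z)
      (haddc.comp (Computable.snd.comp Computable.snd) (Computable.const e)).to₂
  · intro n
    induction n with
    | zero => simpa using hz
    | succ n ih =>
      change ν (add (Nat.rec z (fun _ c => add c e) n) e) = _
      rw [hadd, ih, he]
      push_cast
      rfl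

theorem not_isoDecidable (ν : ℕ → kf gens) (h : IsComputableField (kf gens) ν) :
    ¬ IsoDecidable ν := by
  intro hD
  have h1 := squares_of_iso ν h hD
  have h2 : ¬ ComputablePred fun c : Code => (Code.eval c 0).Dom := ComputablePred.halting_problem 0
  apply h2
  obtain ⟨f, hf, hfs⟩ := exists_natCode ν h
  have h6 : ComputablePred fun c : Code => IsSquare (ν (f (2 ^ (2 ^ Encodable.encode c) + 1))) := by
    rw [ComputablePred.computable_iff] at h1 ⊢
    obtain ⟨g, hg, hgs⟩ := h1
    refine ⟨fun c => g (f (2 ^ (2 ^ Encodable.encode c) + 1)), ?_, ?_⟩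
    · exact hg.comp (hf.comp (prim_fermat.comp Primrec.encode).to_comp)
    · funext c
      exact congrFun hgs (f (2 ^ (2 ^ Encodable.encode c) + 1))
  refine h6.of_eq ?_
  intro c
  rw [hfs, isSquare_fermat_iff, halts_iff]

theorem main_kf :
    (∃ ν : ℕ → kf gens, IsComputableField (kf gens) ν) ∧
    (∀ ν : ℕ → kf gens, IsComputableField (kf gens) ν → ¬ IsoDecidable ν) ∧
    ∀ p : ℕ → Prop, REPred p → ∃ g : ℕ → ℕ, Computable g ∧ (∀ n, 0 < g n) ∧
      ∀ n, p n ↔ Isomorphic (kf gens) (quartic (kf gens) (g n : kf gens)) (quartic (kf gens) 1) := by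
  refine ⟨⟨nu gens, isComputableField⟩, not_isoDecidable, ?_⟩
  intro p hp
  obtain ⟨g, hg, hg0, hgs⟩ := reduction p hp
  refine ⟨g, hg, hg0, ?_⟩
  intro n
  rw [hgs, quartic_iff]
  have := hg0 n
  exact_mod_cast this.ne'

theorem main :
    (∃ ν : ℕ → haltField, IsComputableField haltField ν) ∧
    (∀ ν : ℕ → haltField, IsComputableField haltField ν → ¬ IsoDecidable ν) ∧
    ∀ p : ℕ → Prop, REPred p → ∃ g : ℕ → ℕ, Computable g ∧ (∀ n, 0 < g n) ∧
      ∀ n, p n ↔ Isomorphic haltField (quartic haltField (g n : haltField))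
        (quartic haltField 1) := by
  rw [haltField_eq]
  exact main_kf

end Pool.H48.IsoLie
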